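import Pool.Agent.W541.DL.Stm

/-!
Part EXITP of project DL (MP_cd6101_pr).
-/

namespace Pool.Agent.W594.DL.EXITP

open MeasureTheory ProbabilityTheory Filter Topology Pool.Agent.W541.DL

/-- The deterministic part: a large sheet value not attained in the corridor gives a large
forward or backward exit value. -/
theorem det (hE : S_EXIT) (w : ℕ → ℝ → ℝ) (n : ℕ) (x u A : ℝ) (hw : ∀ k, Continuous (w k))
    (hn : 1 ≤ n) (hu : 0 < u)
    (h1 : supK w n (corr n (2 * x / (n : ℝ) ^ ((1 : ℝ) / 3)) (2 * u / (n : ℝ) ^ ((1 : ℝ) / 3))) <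
        blpp w n (2 * x / (n : ℝ) ^ ((1 : ℝ) / 3)) (1 + 2 * x / (n : ℝ) ^ ((1 : ℝ) / 3)))
    (h2 : -A < preSheet w n x x) :
    ∃ γ : ℝ, (γ = 2 * u / (n : ℝ) ^ ((1 : ℝ) / 3) + 1 / n ∨ γ = -(2 * u / (n : ℝ) ^ ((1 : ℝ) / 3))) ∧
      ((∃ j < n, 0 ≤ (j : ℝ) / n + γ ∧ -(A + 1) / 2 ≤
        bar w n 0 (j + 1) (2 * x / (n : ℝ) ^ ((1 : ℝ) / 3))
          (2 * x / (n : ℝ) ^ ((1 : ℝ) / 3) + j / n + γ)) ∨
      (∃ j < n, (j : ℝ) / n + γ ≤ 1 ∧ -(A + 1) / 2 ≤
        bar w n j (n - j) (2 * x / (n : ℝ) ^ ((1 : ℝ) / 3) + j / n + γ)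
          (1 + 2 * x / (n : ℝ) ^ ((1 : ℝ) / 3)))) := by
  have hn0 : (1 : ℝ) ≤ n := by exact_mod_cast hn
  have hnp : (0 : ℝ) < n := by linarith
  have hN : 0 < (n : ℝ) ^ ((1 : ℝ) / 3) := Real.rpow_pos_of_pos hnp _
  have hb : 0 ≤ 2 * u / (n : ℝ) ^ ((1 : ℝ) / 3) := by positivity
  obtain ⟨j, hj, γ, hγ, hg0, hg1, hle⟩ := hE w n _ _ hw hn hb h1
  refine ⟨γ, hγ, ?_⟩
  set x' : ℝ := 2 * x / (n : ℝ) ^ ((1 : ℝ) / 3) with hx'
  set q : ℝ := (n : ℝ) ^ ((1 : ℝ) / 6) with hq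
  have hqp : 0 < q := Real.rpow_pos_of_pos hnp _
  have hs : Real.sqrt n = q * (n : ℝ) ^ ((1 : ℝ) / 3) := by
    rw [hq, ← Real.rpow_add hnp, Real.sqrt_eq_rpow]; norm_num
  have hsp : 0 < Real.sqrt n := Real.sqrt_pos.2 hnp
  have hss : Real.sqrt n * Real.sqrt n = n := Real.mul_self_sqrt hnp.le
  have hN1 : 1 ≤ (n : ℝ) ^ ((1 : ℝ) / 3) := Real.one_le_rpow hn0 (by norm_num)
  have hqs : q ≤ Real.sqrt n := by rw [hs]; nlinarith
  have hcast : ((n - j : ℕ) : ℝ) = n - j := by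
    rw [Nat.cast_sub hj.le]
  have hsum : preSheet w n x x ≤
      bar w n 0 (j + 1) x' (x' + j / n + γ) + bar w n j (n - j) (x' + j / n + γ) (1 + x') + 1 := by
    have e0 : (fun k => w (0 + k)) = w := by funext k; rw [Nat.zero_add]
    unfold preSheet bar
    rw [e0, hcast, ← hx', ← hq]
    push_cast
    have e1 : q * (blpp w n x' (1 + x') - 2 * Real.sqrt n - 2 * (x - x) * q) ≤
        q * (blpp w (j + 1) x' (x' + j / n + γ) +
          blpp (fun k => w (j + k)) (n - j) (x' + j / n + γ) (1 + x') - 2 * Real.sqrt n) := by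
      apply mul_le_mul_of_nonneg_left _ hqp.le
      linarith
    refine le_trans e1 ?_
    have e2 : q / Real.sqrt n ≤ 1 := by rw [div_le_one hsp]; exact hqs
    have e3 : ((j : ℝ) + 1) / Real.sqrt n + ((n : ℝ) - j) / Real.sqrt n =
        Real.sqrt n + 1 / Real.sqrt n := by
      field_simp
      nlinarith [hss]
    have e4 : q * (Real.sqrt n * (x' + j / n + γ - x') + (j + 1) / Real.sqrt n +
        (Real.sqrt n * (1 + x' - (x' + j / n + γ)) + (n - j) / Real.sqrt n)) =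
        q * (2 * Real.sqrt n) + q / Real.sqrt n := by
      have : Real.sqrt n * (x' + j / n + γ - x') + (j + 1) / Real.sqrt n +
        (Real.sqrt n * (1 + x' - (x' + j / n + γ)) + (n - j) / Real.sqrt n) =
          2 * Real.sqrt n + 1 / Real.sqrt n := by
        linear_combination e3
      rw [this]; ring
    linarith
  by_contra hcon
  push Not at hcon
  have c1 := hcon.1 j hj hg0
  have c2 := hcon.2 j hj hg1
  linarith

/-- The two final probabilities. -/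
theorem fin1 (n : ℕ) (u l X d : ℝ) (hn : 1 ≤ n) (hu : 0 < u) (hl : -(u ^ 2 / 4) ≤ l)
    (hb : 2 * u / (n : ℝ) ^ ((1 : ℝ) / 3) ≤ 1 / 2)
    (hd : d = 1 + 2 * u / (n : ℝ) ^ ((1 : ℝ) / 3))
    (h : l ≤ Real.sqrt d * X - (n : ℝ) ^ ((2 : ℝ) / 3) * (Real.sqrt d - 1) ^ 2) :
    u ^ 2 / 8 ≤ X := by
  have hn0 : (1 : ℝ) ≤ n := by exact_mod_cast hn
  have hnp : (0 : ℝ) < n := by linarith
  set N : ℝ := (n : ℝ) ^ ((1 : ℝ) / 3) with hN'
  have hN : 0 < N := Real.rpow_pos_of_pos hnp _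
  have hN2 : (n : ℝ) ^ ((2 : ℝ) / 3) = N ^ 2 := by
    rw [hN', ← Real.rpow_natCast, ← Real.rpow_mul hnp.le]; norm_num
  have hb0 : 0 < 2 * u / N := by positivity
  have hd1 : 1 ≤ d := by rw [hd]; linarith
  have hd2 : d ≤ 3 / 2 := by rw [hd]; linarith
  have hs0 : 1 ≤ Real.sqrt d := Real.one_le_sqrt.2 hd1
  have hs1 : Real.sqrt d ≤ 13 / 10 := by
    apply Real.sqrt_le_iff.2
    constructor
    · norm_num
    · nlinarith
  have hss : Real.sqrt d * Real.sqrt d = d := Real.mul_self_sqrt (by linarith)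
  have key : N * (Real.sqrt d - 1) * (Real.sqrt d + 1) = 2 * u := by
    have : (Real.sqrt d - 1) * (Real.sqrt d + 1) = 2 * u / N := by nlinarith
    rw [mul_assoc, this]; field_simp
  set z : ℝ := N * (Real.sqrt d - 1) with hz
  have hz0 : 0 ≤ z := by rw [hz]; apply mul_nonneg hN.le; linarith
  have hz1 : 2 * u ≤ z * (23 / 10) := by nlinarith
  have hz2 : 3 / 4 * u ^ 2 ≤ z ^ 2 := by
    have : (2 * u) ^ 2 ≤ (z * (23 / 10)) ^ 2 := by
      apply pow_le_pow_left₀ (by positivity) hz1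
    nlinarith
  rw [hN2] at h
  have hz3 : N ^ 2 * (Real.sqrt d - 1) ^ 2 = z ^ 2 := by rw [hz]; ring
  rw [hz3] at h
  have h4 : u ^ 2 / 2 ≤ Real.sqrt d * X := by linarith
  by_contra hc
  push Not at hc
  have : Real.sqrt d * X ≤ Real.sqrt d * (u ^ 2 / 8) :=
    mul_le_mul_of_nonneg_left hc.le (by linarith)
  nlinarith [sq_nonneg u, mul_pos hu hu]

/-- The two final probabilities, second one. -/
theorem fin2 (n : ℕ) (u l X d : ℝ) (hn : 1 ≤ n) (hu : 0 < u) (hl : -(u ^ 2 / 4) ≤ l)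
    (hd0 : 0 ≤ d)
    (hd : d = 1 - 1 / n - 2 * u / (n : ℝ) ^ ((1 : ℝ) / 3))
    (h : l ≤ Real.sqrt d * X - (n : ℝ) ^ ((2 : ℝ) / 3) * (Real.sqrt d - 1) ^ 2) :
    u ^ 2 / 8 ≤ X := by
  have hn0 : (1 : ℝ) ≤ n := by exact_mod_cast hn
  have hnp : (0 : ℝ) < n := by linarith
  set N : ℝ := (n : ℝ) ^ ((1 : ℝ) / 3) with hN'
  have hN : 0 < N := Real.rpow_pos_of_pos hnp _
  have hN2 : (n : ℝ) ^ ((2 : ℝ) / 3) = N ^ 2 := by
    rw [hN', ← Real.rpow_natCast, ← Real.rpow_mul hnp.le]; norm_num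
  have hb0 : 0 < 2 * u / N := by positivity
  have hn1 : 0 < 1 / (n : ℝ) := by positivity
  have hd1 : d ≤ 1 - 2 * u / N := by rw [hd]; linarith
  have hs0 : 0 ≤ Real.sqrt d := Real.sqrt_nonneg d
  have hs1 : Real.sqrt d ≤ 1 := Real.sqrt_le_one.2 (by linarith)
  have hss : Real.sqrt d * Real.sqrt d = d := Real.mul_self_sqrt hd0
  have key : 2 * u / N ≤ (1 - Real.sqrt d) * 2 := by nlinarith
  have key2 : u ≤ N * (1 - Real.sqrt d) := by
    have := mul_le_mul_of_nonneg_left key hN.le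
    have e : N * (2 * u / N) = 2 * u := by field_simp
    rw [e] at this
    linarith
  have hz2 : u ^ 2 ≤ N ^ 2 * (Real.sqrt d - 1) ^ 2 := by
    have : u ^ 2 ≤ (N * (1 - Real.sqrt d)) ^ 2 := pow_le_pow_left₀ hu.le key2 2
    nlinarith
  rw [hN2] at h
  have h4 : 3 / 4 * u ^ 2 ≤ Real.sqrt d * X := by linarith
  have hup : 0 < u ^ 2 := by positivity
  by_contra hc
  push Not at hc
  have : Real.sqrt d * X ≤ Real.sqrt d * (u ^ 2 / 8) :=
    mul_le_mul_of_nonneg_left hc.le hs0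
  have : Real.sqrt d * (u ^ 2 / 8) ≤ 1 * (u ^ 2 / 8) :=
    mul_le_mul_of_nonneg_right hs1 (by positivity)
  linarith

theorem main (hE : S_EXIT) (hF : S_FWD) (hB : S_BWD) (hO : S_ONE) : S_EXITP := by
  intro Ω _ P W c A u hW hc hA hu hcu
  have hPP : IsProbabilityMeasure P := hW.gauss.isProbabilityMeasure
  have t1 : Tendsto (fun n : ℕ => 2 * u / (n : ℝ) ^ ((1 : ℝ) / 3)) atTop (𝓝 0) := by
    apply Tendsto.div_atTop tendsto_const_nhds
    exact (tendsto_rpow_atTop (by norm_num)).comp tendsto_natCast_atTop_atTop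
  filter_upwards [eventually_ge_atTop 2, t1.eventually (eventually_le_nhds
    (show (0 : ℝ) < 1 / 2 by norm_num))] with n hn hb x
  have hn1 : 1 ≤ n := by omega
  have hnp : (0 : ℝ) < n := by exact_mod_cast hn1
  have hn2 : 1 / (n : ℝ) ≤ 1 / 2 := by
    apply one_div_le_one_div_of_le (by norm_num)
    exact_mod_cast hn
  have hn3 : 0 < 1 / (n : ℝ) := by positivity
  set N : ℝ := (n : ℝ) ^ ((1 : ℝ) / 3) with hN'
  have hN : 0 < N := Real.rpow_pos_of_pos hnp _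
  have hbp : 0 < 2 * u / N := by positivity
  set β : ℝ := 2 * u / N with hβ
  set x' : ℝ := 2 * x / N with hx'
  set l : ℝ := -(A + 1) / 2 with hl
  have hlc : -(u ^ 2 / 4) ≤ l - c := by rw [hl]; linarith
  set q : ℝ := P.real {ω | u ^ 2 / 8 ≤ preSheet (env W ω) n 0 0} with hq
  let FE : ℝ → Set Ω := fun γ => {ω | ∃ j < n, 0 ≤ (j : ℝ) / n + γ ∧
      l ≤ bar (env W ω) n 0 (j + 1) x' (x' + j / n + γ)}
  let BE : ℝ → Set Ω := fun γ => {ω | ∃ j < n, (j : ℝ) / n + γ ≤ 1 ∧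
      l ≤ bar (env W ω) n j (n - j) (x' + j / n + γ) (1 + x')}
  have hsub : {ω | supK (env W ω) n (corr n x' β) < blpp (env W ω) n x' (1 + x') ∧
        -A < preSheet (env W ω) n x x} ⊆
      (FE (β + 1 / n) ∪ BE (β + 1 / n)) ∪ (FE (-β) ∪ BE (-β)) := by
    intro ω hω
    obtain ⟨γ, hγ, hh⟩ := det hE (env W ω) n x u A (fun k => hW.cont k ω) hn1 hu hω.1 hω.2
    rcases hγ with rfl | rfl
    · left
      rcases hh with hh | hh
      · left; exact hh
      · right; exact hh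
    · right
      rcases hh with hh | hh
      · left; exact hh
      · right; exact hh
  -- the one-point bounds
  have o1 : ∀ s : ℝ, P.real {ω | l - c ≤ bar (env W ω) n 0 n s (s + (1 + β))} ≤ q := by
    intro s
    rw [hO Ω P W n s (1 + β) (l - c) hW hn1 (by linarith)]
    refine measureReal_mono ?_ (measure_ne_top _ _)
    intro ω hω
    exact fin1 n u (l - c) _ (1 + β) hn1 hu hlc hb rfl hω
  have o2 : ∀ s : ℝ, P.real {ω | l - c ≤ bar (env W ω) n 0 n s (s + (1 - 1 / n - β))} ≤ q := by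
    intro s
    rw [hO Ω P W n s (1 - 1 / n - β) (l - c) hW hn1 (by linarith)]
    refine measureReal_mono ?_ (measure_ne_top _ _)
    intro ω hω
    exact fin2 n u (l - c) _ (1 - 1 / n - β) hn1 hu hlc (by linarith) rfl hω
  have f1 : P.real (FE (β + 1 / n)) ≤ 2 * q := by
    refine le_trans (hF Ω P W c n x' (β + 1 / n) l hW hc hn1) ?_
    have e : (1 : ℝ) - 1 / n + (β + 1 / n) = 1 + β := by ring
    rw [e]
    linarith [o1 x']
  have f2 : P.real (FE (-β)) ≤ 2 * q := by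
    refine le_trans (hF Ω P W c n x' (-β) l hW hc hn1) ?_
    have e : (1 : ℝ) - 1 / n + (-β) = 1 - 1 / n - β := by ring
    rw [e]
    linarith [o2 x']
  have b1 : P.real (BE (β + 1 / n)) ≤ 2 * q := by
    refine le_trans (hB Ω P W c n x' (β + 1 / n) l hW hc hn1) ?_
    have e : (1 : ℝ) - (β + 1 / n) = 1 - 1 / n - β := by ring
    rw [e]
    linarith [o2 (x' + (β + 1 / n))]
  have b2 : P.real (BE (-β)) ≤ 2 * q := by
    refine le_trans (hB Ω P W c n x' (-β) l hW hc hn1) ?_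
    have e : (1 : ℝ) - (-β) = 1 + β := by ring
    rw [e]
    linarith [o1 (x' + (-β))]
  calc P.real {ω | supK (env W ω) n (corr n x' β) < blpp (env W ω) n x' (1 + x') ∧
        -A < preSheet (env W ω) n x x}
      ≤ P.real ((FE (β + 1 / n) ∪ BE (β + 1 / n)) ∪ (FE (-β) ∪ BE (-β))) := measureReal_mono hsub
    _ ≤ P.real (FE (β + 1 / n) ∪ BE (β + 1 / n)) + P.real (FE (-β) ∪ BE (-β)) :=
        measureReal_union_le _ _
    _ ≤ (P.real (FE (β + 1 / n)) + P.real (BE (β + 1 / n))) +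
        (P.real (FE (-β)) + P.real (BE (-β))) :=
        add_le_add (measureReal_union_le _ _) (measureReal_union_le _ _)
    _ ≤ 8 * q := by linarith

end Pool.Agent.W594.DL.EXITP
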